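import Mathlib
import Pool.Agent.Helper858.Test

/-! Project FC (helper300): the test function of degree 17. Adaptation of
`Pool.Agent.Helper858.Test`. -/

namespace Pool.Agent.Y300.FC.Test

open Pool.Agent.Helper858.Leg Pool.Agent.Helper858.Gen Pool.Agent.Helper858.Der Set Filter Topology
open Pool.Agent.Helper858.Test (th D_th)

/-- coefficients of the test function -/
def bc : ℕ → ℤ
  | 0 => 163123292533895338888868625000
  | 1 => -20054685973394936127501987750000
  | 2 => 490915523164936184381184648279750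
  | 3 => -3385675824588474019330725721473750
  | 4 => 9481611818075587257121271207480490
  | 5 => -13045678272668357023858570404711090
  | 6 => 9903523989825140330545559420257290
  | 7 => -4476956982008171471951265508538666
  | 8 => 1269611828146621114206113095353446
  | 9 => -234081483864911126325338801513414
  | 10 => 28724649532059356983822936632840
  | 11 => -2377041658742969333817455308200
  | 12 => 133071427521378211176771098400
  | 13 => -4998390918821676380274720000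
  | 14 => 123009120303488636976000000
  | 15 => -1887013948989232800000000
  | 16 => 16247844542160000000000
  | 17 => -59569171200000000000
  | _ => 0

/-- the symbol of the test function -/
noncomputable def Th (z x σ : ℝ) : ℝ := ∑ n ∈ Finset.range 18, (bc n : ℝ) * th z x σ n

/-- the test function -/
noncomputable def fT (s x : ℝ) : ℝ :=
  ∑ n ∈ Finset.range 18, (bc n : ℝ) * (sg x ^ (2 * n + 3) * GG s (n + 1) x)

/-- the polynomial `B` -/
noncomputable def BP (v : ℝ) : ℝ := 3790593263457 *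
  ((61825 + 34445 * (51 - 50 * v) + 3138 * (51 - 50 * v) ^ 2 + 592 * (51 - 50 * v) ^ 3) *
  ((150 * v - 1) ^ 2 * (35 * v - 2) ^ 2 * (33 * v - 5) ^ 2 * (25 * v - 7) ^ 2 * (12 * v - 5) ^ 2 * (12 * v - 7) ^ 2 * (11 * v - 9) ^ 2))

lemma BP_eq (v : ℝ) : BP v = ∑ n ∈ Finset.range 18, (bc n : ℝ) * (dfac (n + 1) : ℝ) * v ^ n := by
  simp only [Finset.sum_range_succ, Finset.sum_range_zero, bc, dfac, BP]
  push_cast
  ring

lemma fT_eq {s x : ℝ} (hx : 1 < x) (hs : s ≤ 1) :
    fT s x = (sg x ^ 2 / (2 * (x - s))) ^ (3 / 2 : ℝ) * BP (sg x ^ 2 / (2 * (x - s))) := by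
  have hp : 0 < 2 * (x - s) := by linarith
  have hσ := sg_pos hx
  set v := sg x ^ 2 / (2 * (x - s)) with hv
  have hvp : 0 < v := by positivity
  rw [BP_eq, Finset.mul_sum, fT]
  refine Finset.sum_congr rfl fun n _ => ?_
  unfold GG
  have e1 : sg x ^ (2 * n + 3) = (sg x ^ 2) ^ (((n + 1 : ℕ) : ℝ) + 1 / 2) := by
    rw [← Real.rpow_natCast (sg x) 2, ← Real.rpow_mul hσ.le, ← Real.rpow_natCast]
    congr 1
    push_cast; ring
  have e2 : v ^ (3 / 2 : ℝ) * v ^ n = v ^ (((n + 1 : ℕ) : ℝ) + 1 / 2) := by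
    rw [← Real.rpow_natCast v n, ← Real.rpow_add hvp]
    congr 1
    push_cast; ring
  have e3 : v ^ (((n + 1 : ℕ) : ℝ) + 1 / 2) =
      (sg x ^ 2) ^ (((n + 1 : ℕ) : ℝ) + 1 / 2) * (2 * (x - s)) ^ (-(((n + 1 : ℕ) : ℝ) + 1 / 2)) := by
    rw [hv, Real.div_rpow (by positivity) hp.le, Real.rpow_neg hp.le, div_eq_mul_inv]
  calc (bc n : ℝ) * (sg x ^ (2 * n + 3) * ((dfac (n + 1) : ℝ) *
      (2 * (x - s)) ^ (-(((n + 1 : ℕ) : ℝ) + 1 / 2))))
      = (bc n : ℝ) * (dfac (n + 1) : ℝ) * ((sg x ^ 2) ^ (((n + 1 : ℕ) : ℝ) + 1 / 2) *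
        (2 * (x - s)) ^ (-(((n + 1 : ℕ) : ℝ) + 1 / 2))) := by rw [e1]; ring
    _ = (bc n : ℝ) * (dfac (n + 1) : ℝ) * (v ^ (3 / 2 : ℝ) * v ^ n) := by rw [e2, e3]
    _ = _ := by ring

lemma fT_nonneg {s x : ℝ} (hx : 1 < x) (hx2 : x ≤ 26 / 25) (hs : s ≤ 1) : 0 ≤ fT s x := by
  rw [fT_eq hx hs]
  have hp : 0 < 2 * (x - s) := by linarith
  have hσ := sg_sq hx.le
  have hv : sg x ^ 2 / (2 * (x - s)) ≤ 51 / 50 := by
    rw [div_le_iff₀ hp, hσ]
    nlinarith
  apply mul_nonneg (by positivity)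
  unfold BP
  have hU : 0 ≤ 51 - 50 * (sg x ^ 2 / (2 * (x - s))) := by linarith
  generalize sg x ^ 2 / (2 * (x - s)) = v at hU
  generalize 51 - 50 * v = U at hU
  positivity

lemma fT_one {x : ℝ} (hx : 1 < x) :
    fT 1 x = ((x + 1) / 2) ^ (3 / 2 : ℝ) * BP ((x + 1) / 2) := by
  rw [fT_eq hx le_rfl]
  have : sg x ^ 2 / (2 * (x - 1)) = (x + 1) / 2 := by
    rw [sg_sq hx.le, div_eq_div_iff (by linarith) (by norm_num)]
    ring
  rw [this]

/-- the Legendre coefficients of the test function -/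
noncomputable def cf (k : ℕ) (x : ℝ) : ℝ :=
  sg x ^ 2 * (((k : ℝ) + 1 / 2) * EE k x * Th (((k : ℝ) + 1 / 2) * sg x) x (sg x))

lemma cf_eq (k : ℕ) {x : ℝ} (hx : 1 < x) :
    cf k x = ∑ n ∈ Finset.range 18, (bc n : ℝ) * (sg x ^ (2 * n + 3) * D k x (n + 1)) := by
  unfold cf Th
  rw [Finset.mul_sum, Finset.mul_sum]
  refine Finset.sum_congr rfl fun n _ => ?_
  have h := D_th k hx n
  have e : sg x ^ (2 * n + 3) * D k x (n + 1) = sg x ^ 2 * (sg x ^ (2 * n + 1) * D k x (n + 1)) := by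
    ring
  rw [e, h]; ring

lemma summable_cf {a : ℕ → ℝ} (ha : ∀ k, |a k| ≤ 1) {x : ℝ} (hx : 1 < x) :
    Summable (fun k => a k * cf k x) := by
  have : (fun k => a k * cf k x) = fun k => ∑ n ∈ Finset.range 18,
      ((bc n : ℝ) * sg x ^ (2 * n + 3)) * (a k * D k x (n + 1)) := by
    funext k
    rw [cf_eq k hx, Finset.mul_sum]
    refine Finset.sum_congr rfl fun n _ => by ring
  rw [this]
  exact summable_sum fun n _ => (summable_D ha hx (n + 1)).mul_left _

lemma fT_tsum {s x : ℝ} (hx : 1 < x) (hs : |s| ≤ 1) : fT s x = ∑' k, leg s k * cf k x := by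
  have : (fun k => leg s k * cf k x) = fun k => ∑ n ∈ Finset.range 18,
      ((bc n : ℝ) * sg x ^ (2 * n + 3)) * (leg s k * D k x (n + 1)) := by
    funext k
    rw [cf_eq k hx, Finset.mul_sum]
    refine Finset.sum_congr rfl fun n _ => by ring
  rw [this, Summable.tsum_finsetSum
    (fun n _ => (summable_D (abs_leg_le_one s hs) hx (n + 1)).mul_left _)]
  unfold fT
  refine Finset.sum_congr rfl fun n _ => ?_
  rw [tsum_mul_left, GG_eq_tsum hs (n + 1) x hx]
  ring

end Pool.Agent.Y300.FC.Test
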