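import Mathlib
import Pool.Agent.Helper858.Asym
import Pool.Agent.Y300.FC.Test

/-! Project FC (helper300): adaptation of `Pool.Agent.Helper858.Asym`. -/

namespace Pool.Agent.Y300.FC.Asym

open Pool.Agent.Helper858.Leg Pool.Agent.Helper858.Gen Pool.Agent.Helper858.Der
  Pool.Agent.Y300.FC.Test Set Filter Topology
open Pool.Agent.Helper858.Test (th D_th)
open Pool.Agent.Helper858.Asym (et th_et continuous_et continuous_th xs continuous_xs xs_zero
  xs_gt sg_xs)

noncomputable def HH (w x σ : ℝ) : ℝ :=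
  ∑ n ∈ Finset.range 18, (bc n : ℝ) * (w ^ (17 - n) * et w x σ n)

lemma Th_HH {w : ℝ} (hw : w ≠ 0) (x σ : ℝ) : Th (1 / w) x σ * w ^ 17 = HH w x σ := by
  unfold Th HH
  rw [Finset.sum_mul]
  refine Finset.sum_congr rfl fun n hn => ?_
  rw [← th_et hw x σ n]
  have : n ≤ 17 := by
    have := Finset.mem_range.mp hn
    omega
  have e : w ^ 17 = w ^ (17 - n) * w ^ n := by rw [← pow_add]; congr 1; omega
  rw [e]; ring

lemma continuous_HH : Continuous (fun p : ℝ × ℝ × ℝ => HH p.1 p.2.1 p.2.2) := by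
  unfold HH
  exact continuous_finsetSum _ fun n _ => by
    have := continuous_et n
    fun_prop

lemma continuous_Th : Continuous (fun p : ℝ × ℝ × ℝ => Th p.1 p.2.1 p.2.2) := by
  unfold Th
  exact continuous_finsetSum _ fun n _ => by
    have := continuous_th n
    fun_prop

lemma et_step (w : ℝ) (n : ℕ) : et w 1 0 (n + 2) =
    (2 * (n : ℝ) + 3) * w * et w 1 0 (n + 1) + et w 1 0 n := by
  rw [et]; ring

lemma th_step (n : ℕ) : th 0 1 0 (n + 2) = (2 * (n : ℝ) + 3) * th 0 1 0 (n + 1) := by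
  rw [th]; ring

lemma e0 (w : ℝ) : et w 1 0 0 = 1 := by rw [et]
lemma e1 (w : ℝ) : et w 1 0 1 = 1 + w := by rw [et]; ring
lemma t0 : th 0 1 0 0 = 1 := by rw [th]
lemma t1 : th 0 1 0 1 = 1 := by rw [th]; norm_num
lemma e2 (w : ℝ) : et w 1 0 2 = 1 + 3 * w ^ 1 + 3 * w ^ 2 := by
  have h := et_step w 0
  norm_num only [Nat.reduceAdd] at h
  rw [h, e1, e0]; push_cast; ring
lemma t2 : th 0 1 0 2 = 3 := by
  have h := th_step 0
  norm_num only [Nat.reduceAdd] at h
  rw [h, t1]; norm_num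
lemma e3 (w : ℝ) : et w 1 0 3 = 1 + 6 * w ^ 1 + 15 * w ^ 2 + 15 * w ^ 3 := by
  have h := et_step w 1
  norm_num only [Nat.reduceAdd] at h
  rw [h, e2, e1]; push_cast; ring
lemma t3 : th 0 1 0 3 = 15 := by
  have h := th_step 1
  norm_num only [Nat.reduceAdd] at h
  rw [h, t2]; norm_num
lemma e4 (w : ℝ) : et w 1 0 4 = 1 + 10 * w ^ 1 + 45 * w ^ 2 + 105 * w ^ 3 + 105 * w ^ 4 := by
  have h := et_step w 2
  norm_num only [Nat.reduceAdd] at h
  rw [h, e3, e2]; push_cast; ring
lemma t4 : th 0 1 0 4 = 105 := by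
  have h := th_step 2
  norm_num only [Nat.reduceAdd] at h
  rw [h, t3]; norm_num
lemma e5 (w : ℝ) : et w 1 0 5 = 1 + 15 * w ^ 1 + 105 * w ^ 2 + 420 * w ^ 3 + 945 * w ^ 4 + 945 * w ^ 5 := by
  have h := et_step w 3
  norm_num only [Nat.reduceAdd] at h
  rw [h, e4, e3]; push_cast; ring
lemma t5 : th 0 1 0 5 = 945 := by
  have h := th_step 3
  norm_num only [Nat.reduceAdd] at h
  rw [h, t4]; norm_num
lemma e6 (w : ℝ) : et w 1 0 6 = 1 + 21 * w ^ 1 + 210 * w ^ 2 + 1260 * w ^ 3 + 4725 * w ^ 4 + 10395 * w ^ 5 + 10395 * w ^ 6 := by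
  have h := et_step w 4
  norm_num only [Nat.reduceAdd] at h
  rw [h, e5, e4]; push_cast; ring
lemma t6 : th 0 1 0 6 = 10395 := by
  have h := th_step 4
  norm_num only [Nat.reduceAdd] at h
  rw [h, t5]; norm_num
lemma e7 (w : ℝ) : et w 1 0 7 = 1 + 28 * w ^ 1 + 378 * w ^ 2 + 3150 * w ^ 3 + 17325 * w ^ 4 + 62370 * w ^ 5 + 135135 * w ^ 6 + 135135 * w ^ 7 := by
  have h := et_step w 5
  norm_num only [Nat.reduceAdd] at h
  rw [h, e6, e5]; push_cast; ring
lemma t7 : th 0 1 0 7 = 135135 := by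
  have h := th_step 5
  norm_num only [Nat.reduceAdd] at h
  rw [h, t6]; norm_num
lemma e8 (w : ℝ) : et w 1 0 8 = 1 + 36 * w ^ 1 + 630 * w ^ 2 + 6930 * w ^ 3 + 51975 * w ^ 4 + 270270 * w ^ 5 + 945945 * w ^ 6 + 2027025 * w ^ 7 + 2027025 * w ^ 8 := by
  have h := et_step w 6
  norm_num only [Nat.reduceAdd] at h
  rw [h, e7, e6]; push_cast; ring
lemma t8 : th 0 1 0 8 = 2027025 := by
  have h := th_step 6
  norm_num only [Nat.reduceAdd] at h
  rw [h, t7]; norm_num
lemma e9 (w : ℝ) : et w 1 0 9 = 1 + 45 * w ^ 1 + 990 * w ^ 2 + 13860 * w ^ 3 + 135135 * w ^ 4 + 945945 * w ^ 5 + 4729725 * w ^ 6 + 16216200 * w ^ 7 + 34459425 * w ^ 8 + 34459425 * w ^ 9 := by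
  have h := et_step w 7
  norm_num only [Nat.reduceAdd] at h
  rw [h, e8, e7]; push_cast; ring
lemma t9 : th 0 1 0 9 = 34459425 := by
  have h := th_step 7
  norm_num only [Nat.reduceAdd] at h
  rw [h, t8]; norm_num
lemma e10 (w : ℝ) : et w 1 0 10 = 1 + 55 * w ^ 1 + 1485 * w ^ 2 + 25740 * w ^ 3 + 315315 * w ^ 4 + 2837835 * w ^ 5 + 18918900 * w ^ 6 + 91891800 * w ^ 7 + 310134825 * w ^ 8 + 654729075 * w ^ 9 + 654729075 * w ^ 10 := by
  have h := et_step w 8
  norm_num only [Nat.reduceAdd] at h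
  rw [h, e9, e8]; push_cast; ring
lemma t10 : th 0 1 0 10 = 654729075 := by
  have h := th_step 8
  norm_num only [Nat.reduceAdd] at h
  rw [h, t9]; norm_num
lemma e11 (w : ℝ) : et w 1 0 11 = 1 + 66 * w ^ 1 + 2145 * w ^ 2 + 45045 * w ^ 3 + 675675 * w ^ 4 + 7567560 * w ^ 5 + 64324260 * w ^ 6 + 413513100 * w ^ 7 + 1964187225 * w ^ 8 + 6547290750 * w ^ 9 + 13749310575 * w ^ 10 + 13749310575 * w ^ 11 := by
  have h := et_step w 9
  norm_num only [Nat.reduceAdd] at h
  rw [h, e10, e9]; push_cast; ring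
lemma t11 : th 0 1 0 11 = 13749310575 := by
  have h := th_step 9
  norm_num only [Nat.reduceAdd] at h
  rw [h, t10]; norm_num
lemma e12 (w : ℝ) : et w 1 0 12 = 1 + 78 * w ^ 1 + 3003 * w ^ 2 + 75075 * w ^ 3 + 1351350 * w ^ 4 + 18378360 * w ^ 5 + 192972780 * w ^ 6 + 1571349780 * w ^ 7 + 9820936125 * w ^ 8 + 45831035250 * w ^ 9 + 151242416325 * w ^ 10 + 316234143225 * w ^ 11 + 316234143225 * w ^ 12 := by
  have h := et_step w 10
  norm_num only [Nat.reduceAdd] at h
  rw [h, e11, e10]; push_cast; ring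
lemma t12 : th 0 1 0 12 = 316234143225 := by
  have h := th_step 10
  norm_num only [Nat.reduceAdd] at h
  rw [h, t11]; norm_num
lemma e13 (w : ℝ) : et w 1 0 13 = 1 + 91 * w ^ 1 + 4095 * w ^ 2 + 120120 * w ^ 3 + 2552550 * w ^ 4 + 41351310 * w ^ 5 + 523783260 * w ^ 6 + 5237832600 * w ^ 7 + 41247931725 * w ^ 8 + 252070693875 * w ^ 9 + 1159525191825 * w ^ 10 + 3794809718700 * w ^ 11 + 7905853580625 * w ^ 12 + 7905853580625 * w ^ 13 := by
  have h := et_step w 11
  norm_num only [Nat.reduceAdd] at h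
  rw [h, e12, e11]; push_cast; ring
lemma t13 : th 0 1 0 13 = 7905853580625 := by
  have h := th_step 11
  norm_num only [Nat.reduceAdd] at h
  rw [h, t12]; norm_num
lemma e14 (w : ℝ) : et w 1 0 14 = 1 + 105 * w ^ 1 + 5460 * w ^ 2 + 185640 * w ^ 3 + 4594590 * w ^ 4 + 87297210 * w ^ 5 + 1309458150 * w ^ 6 + 15713497800 * w ^ 7 + 151242416325 * w ^ 8 + 1159525191825 * w ^ 9 + 6957151150950 * w ^ 10 + 31623414322500 * w ^ 11 + 102776096548125 * w ^ 12 + 213458046676875 * w ^ 13 + 213458046676875 * w ^ 14 := by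
  have h := et_step w 12
  norm_num only [Nat.reduceAdd] at h
  rw [h, e13, e12]; push_cast; ring
lemma t14 : th 0 1 0 14 = 213458046676875 := by
  have h := th_step 12
  norm_num only [Nat.reduceAdd] at h
  rw [h, t13]; norm_num
lemma e15 (w : ℝ) : et w 1 0 15 = 1 + 120 * w ^ 1 + 7140 * w ^ 2 + 278460 * w ^ 3 + 7936110 * w ^ 4 + 174594420 * w ^ 5 + 3055402350 * w ^ 6 + 43212118950 * w ^ 7 + 496939367925 * w ^ 8 + 4638100767300 * w ^ 9 + 34785755754750 * w ^ 10 + 205552193096250 * w ^ 11 + 924984868933125 * w ^ 12 + 2988412653476250 * w ^ 13 + 6190283353629375 * w ^ 14 + 6190283353629375 * w ^ 15 := by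
  have h := et_step w 13
  norm_num only [Nat.reduceAdd] at h
  rw [h, e14, e13]; push_cast; ring
lemma t15 : th 0 1 0 15 = 6190283353629375 := by
  have h := th_step 13
  norm_num only [Nat.reduceAdd] at h
  rw [h, t14]; norm_num
lemma e16 (w : ℝ) : et w 1 0 16 = 1 + 136 * w ^ 1 + 9180 * w ^ 2 + 406980 * w ^ 3 + 13226850 * w ^ 4 + 333316620 * w ^ 5 + 6721885170 * w ^ 6 + 110430970650 * w ^ 7 + 1490818103775 * w ^ 8 + 16564645597500 * w ^ 9 + 150738274937250 * w ^ 10 + 1109981842719750 * w ^ 11 + 6474894082531875 * w ^ 12 + 28887988983603750 * w ^ 13 + 92854250304440625 * w ^ 14 + 191898783962510625 * w ^ 15 + 191898783962510625 * w ^ 16 := by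
  have h := et_step w 14
  norm_num only [Nat.reduceAdd] at h
  rw [h, e15, e14]; push_cast; ring
lemma t16 : th 0 1 0 16 = 191898783962510625 := by
  have h := th_step 14
  norm_num only [Nat.reduceAdd] at h
  rw [h, t15]; norm_num
lemma e17 (w : ℝ) : et w 1 0 17 = 1 + 153 * w ^ 1 + 11628 * w ^ 2 + 581400 * w ^ 3 + 21366450 * w ^ 4 + 611080470 * w ^ 5 + 14054850810 * w ^ 6 + 265034329560 * w ^ 7 + 4141161399375 * w ^ 8 + 53835098191875 * w ^ 9 + 581419060472250 * w ^ 10 + 5179915266025500 * w ^ 11 + 37554385678684875 * w ^ 12 + 216659917377028125 * w ^ 13 + 959493919812553125 * w ^ 14 + 3070380543400170000 * w ^ 15 + 6332659870762850625 * w ^ 16 + 6332659870762850625 * w ^ 17 := by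
  have h := et_step w 15
  norm_num only [Nat.reduceAdd] at h
  rw [h, e16, e15]; push_cast; ring
lemma t17 : th 0 1 0 17 = 6332659870762850625 := by
  have h := th_step 15
  norm_num only [Nat.reduceAdd] at h
  rw [h, t16]; norm_num

lemma HH_poly (w : ℝ) : HH w 1 0 = (-59569171200000000000) * w ^ 0 + (7133761348560000000000) * w ^ 1 + (-369977413969072800000000) * w ^ 2 + (11089143186129500976000000) * w ^ 3 + (-215946828956454889794720000) * w ^ 4 + (2895991978174384972731578400) * w ^ 5 + (-27577491236673360237648033000) * w ^ 6 + (189317753357435014898968386840) * w ^ 7 + (-939592056854601133108286416214) * w ^ 8 + (3361778606233878474439908788216) * w ^ 9 + (-8476319579411022596274409403870) * w ^ 10 + (15249693302726909251261769432182) * w ^ 11 + (-15368021586343393088381197822458) * w ^ 12 + (25024197522868169844771031952760) * w ^ 13 + (47358474650143212085437277849920) * w ^ 14 + (169183084427622012896524868751000) * w ^ 15 + (345419143359041466305760784953240)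 * w ^ 16 + (345582266651575361644649653578240) * w ^ 17 := by
  simp only [HH, Finset.sum_range_succ, Finset.sum_range_zero, bc, e0, e1, e2, e3, e4, e5, e6, e7, e8, e9, e10, e11, e12, e13, e14, e15, e16, e17]
  push_cast
  ring

lemma HH_neg1 {w : ℝ} (h0 : 0 ≤ w) (h1 : w ≤ 1 / 28) : HH w 1 0 < 0 := by
  have e : HH w 1 0 = - (387423729019734841557651849791531925472 * (1 - 28 * w) ^ 0 * w ^ 17 +
      176634629140534593863332417376792358184 * (1 - 28 * w) ^ 1 * w ^ 16 +
      24892289030047380276808236408201069596776 * (1 - 28 * w) ^ 2 * w ^ 15 +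
      15749347473086829916373897126706391413376 * (1 - 28 * w) ^ 3 * w ^ 14 +
      4653085326682441571349422420693955747872 * (1 - 28 * w) ^ 4 * w ^ 13 +
      851102622567853249762600950478098740714 * (1 - 28 * w) ^ 5 * w ^ 12 +
      107788306013126210076911233419921949058 * (1 - 28 * w) ^ 6 * w ^ 11 +
      10012012326122737996381403973974435422 * (1 - 28 * w) ^ 7 * w ^ 10 +
      704605441942148446605089774094494512 * (1 - 28 * w) ^ 8 * w ^ 9 +
      38255184404820345110326210665765014 * (1 - 28 * w) ^ 9 * w ^ 8 +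
      1615397058196462636959241100887560 * (1 - 28 * w) ^ 10 * w ^ 7 +
      53048407541786517146763227130600 * (1 - 28 * w) ^ 11 * w ^ 6 +
      1343588787371710600928802501600 * (1 - 28 * w) ^ 12 * w ^ 5 +
      25771984522312992203202720000 * (1 - 28 * w) ^ 13 * w ^ 4 +
      362367566412388275024000000 * (1 - 28 * w) ^ 14 * w ^ 3 +
      3525555639842992800000000 * (1 - 28 * w) ^ 15 * w ^ 2 +
      21221164142640000000000 * (1 - 28 * w) ^ 16 * w ^ 1 +
      59569171200000000000 * (1 - 28 * w) ^ 17 * w ^ 0) := by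
    rw [HH_poly]
    ring
  have hu : 0 ≤ 1 - 28 * w := by linarith
  rw [e, neg_lt_zero]
  rcases eq_or_lt_of_le h0 with h | h
  · rw [← h]; norm_num
  · positivity

lemma HH_neg2 {w : ℝ} (h0 : 1 / 28 ≤ w) (h1 : w ≤ 2 / 31) : HH w 1 0 < 0 := by
  have e : HH w 1 0 = - (50780403010074685152644543255875672535465984 / 582076609134674072265625 * (28 * w - 1) ^ 0 * (1 - 31 / 2 * w) ^ 17 +
      573868674787417769009273402719749833454256128 / 582076609134674072265625 * (28 * w - 1) ^ 1 * (1 - 31 / 2 * w) ^ 16 +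
      512069843322598875192421398200674811212417204224 / 582076609134674072265625 * (28 * w - 1) ^ 2 * (1 - 31 / 2 * w) ^ 15 +
      722976225960223064583457757932182288734321639424 / 116415321826934814453125 * (28 * w - 1) ^ 3 * (1 - 31 / 2 * w) ^ 14 +
      2386276882488704370787569416595327846677816541184 / 116415321826934814453125 * (28 * w - 1) ^ 4 * (1 - 31 / 2 * w) ^ 13 +
      24371276504645889749894117222453872097794274516992 / 582076609134674072265625 * (28 * w - 1) ^ 5 * (1 - 31 / 2 * w) ^ 12 +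
      34421082107796346845854239155625377638928006877184 / 582076609134674072265625 * (28 * w - 1) ^ 6 * (1 - 31 / 2 * w) ^ 11 +
      35570284296601504505483134938216811304340729772032 / 582076609134674072265625 * (28 * w - 1) ^ 7 * (1 - 31 / 2 * w) ^ 10 +
      5548929077708517031752863364558083380340838801408 / 116415321826934814453125 * (28 * w - 1) ^ 8 * (1 - 31 / 2 * w) ^ 9 +
      3319808834362584169646074531939782874236158519808 / 116415321826934814453125 * (28 * w - 1) ^ 9 * (1 - 31 / 2 * w) ^ 8 +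
      7656757761712004393539839121930999340691724792832 / 582076609134674072265625 * (28 * w - 1) ^ 10 * (1 - 31 / 2 * w) ^ 7 +
      2710579483673621660096221937110914180555307293184 / 582076609134674072265625 * (28 * w - 1) ^ 11 * (1 - 31 / 2 * w) ^ 6 +
      725084216015613608860422395915512304941737608192 / 582076609134674072265625 * (28 * w - 1) ^ 12 * (1 - 31 / 2 * w) ^ 5 +
      28429076134910248924489447758499148159403369984 / 116415321826934814453125 * (28 * w - 1) ^ 13 * (1 - 31 / 2 * w) ^ 4 +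
      3861499820165337963795061195377120218711706624 / 116415321826934814453125 * (28 * w - 1) ^ 14 * (1 - 31 / 2 * w) ^ 3 +
      1626649312185655248467510382984782672997901824 / 582076609134674072265625 * (28 * w - 1) ^ 15 * (1 - 31 / 2 * w) ^ 2 +
      64152643292251502747807692142561933927472128 / 582076609134674072265625 * (28 * w - 1) ^ 16 * (1 - 31 / 2 * w) ^ 1 +
      2962042289011235173744780598721003280384 / 582076609134674072265625 * (28 * w - 1) ^ 17 * (1 - 31 / 2 * w) ^ 0) := by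
    rw [HH_poly]
    ring
  have hu : 0 ≤ 28 * w - 1 := by linarith
  have hv : 0 ≤ 1 - 31 / 2 * w := by linarith
  rw [e, neg_lt_zero]
  rcases eq_or_lt_of_le hu with h | h
  · have hw : w = 1 / 28 := by linarith
    rw [hw]; norm_num
  · generalize 28 * w - 1 = a at *
    generalize 1 - 31 / 2 * w = b at *
    positivity

lemma HH_neg {w : ℝ} (h0 : 0 ≤ w) (h1 : w ≤ 2 / 31) : HH w 1 0 < 0 := by
  rcases le_total w (1 / 28) with h | h
  · exact HH_neg1 h0 h
  · exact HH_neg2 h h1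

lemma Th_zero : Th 0 1 0 = 345582266651575361644649653578240 := by
  simp only [Th, Finset.sum_range_succ, Finset.sum_range_zero, bc, t0, t1, t2, t3, t4, t5, t6, t7, t8, t9, t10, t11, t12, t13, t14, t15, t16, t17]
  norm_num

lemma BP_one : BP 1 = 11406824400313277952216520320000000 := by
  unfold BP; norm_num

lemma continuous_BP : Continuous BP := by unfold BP; fun_prop

attribute [local irreducible] HH Th BP

lemma ev_neg : ∀ᶠ σ in 𝓝 (0 : ℝ), ∀ z, 31 / 2 ≤ z → Th z (xs σ) σ ≤ 0 := by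
  have hopen : IsOpen {p : ℝ × ℝ × ℝ | HH p.1 p.2.1 p.2.2 < 0} :=
    isOpen_lt continuous_HH continuous_const
  obtain ⟨u, v, _, hv, hsu, htv, huv⟩ := generalized_tube_lemma
    (isCompact_Icc (a := (0 : ℝ)) (b := 2 / 31)) (isCompact_singleton (x := ((1 : ℝ), (0 : ℝ))))
    hopen (by
      rintro ⟨w, q⟩ ⟨hw, hq⟩
      rw [mem_singleton_iff] at hq
      simp only at hq
      subst hq
      exact HH_neg hw.1 hw.2)
  have hc : Continuous (fun σ : ℝ => (xs σ, σ)) := by
    have := continuous_xs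
    fun_prop
  have hmem : (xs 0, (0 : ℝ)) ∈ v := by
    rw [xs_zero]; exact htv (mem_singleton _)
  have := hc.continuousAt.preimage_mem_nhds (hv.mem_nhds hmem)
  filter_upwards [this] with σ hσ z hz
  have hz0 : 0 < z := by linarith
  have hw : 1 / z ∈ Icc (0 : ℝ) (2 / 31) := by
    constructor
    · positivity
    · rw [div_le_div_iff₀ hz0 (by norm_num)]; linarith
  have h1 : HH (1 / z) (xs σ) σ < 0 := huv (mk_mem_prod (hsu hw) hσ)
  have h2 := Th_HH (w := 1 / z) (by positivity) (xs σ) σ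
  rw [one_div_one_div] at h2
  rw [← h2] at h1
  have h3 : 0 < (1 / z) ^ 17 := by positivity
  by_contra hcon
  push Not at hcon
  have := mul_pos hcon h3
  linarith

lemma ev_bound : ∃ C : ℝ, 0 < C ∧ ∀ σ ∈ Icc (0 : ℝ) 1, ∀ z ∈ Icc (0 : ℝ) (31 / 2),
    Th z (xs σ) σ ≤ C := by
  have hc : Continuous (fun p : ℝ × ℝ => Th p.1 (xs p.2) p.2) := by
    have h1 := continuous_Th
    have h2 := continuous_xs
    exact h1.comp (by fun_prop : Continuous (fun p : ℝ × ℝ => (p.1, xs p.2, p.2)))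
  have hK : IsCompact (Icc (0 : ℝ) (31 / 2) ×ˢ Icc (0 : ℝ) 1) := isCompact_Icc.prod isCompact_Icc
  obtain ⟨C, hC⟩ := hK.exists_bound_of_continuousOn hc.continuousOn
  refine ⟨|C| + 1, by positivity, fun σ hσ z hz => ?_⟩
  have := hC (z, σ) (mk_mem_prod hz hσ)
  simp only at this
  calc Th z (xs σ) σ ≤ ‖Th z (xs σ) σ‖ := le_abs_self _
    _ ≤ C := this
    _ ≤ |C| := le_abs_self _
    _ ≤ |C| + 1 := by linarith

/-- the gain -/
noncomputable def gain (σ : ℝ) : ℝ :=
  ((xs σ + 1) / 2) ^ (3 / 2 : ℝ) * BP ((xs σ + 1) / 2) * ((19079 / 10000) ^ 2 / (31 / 2) ^ 2)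
    - 1 / 2 * |Th (σ / 2) (xs σ) σ|

lemma continuous_gain : ContinuousAt gain 0 := by
  have h1 := continuous_Th
  have h2 := continuous_xs
  have h3 : Continuous (fun σ : ℝ => Th (σ / 2) (xs σ) σ) :=
    h1.comp (by fun_prop : Continuous (fun σ : ℝ => (σ / 2, xs σ, σ)))
  have h4 : Continuous (fun σ : ℝ => BP ((xs σ + 1) / 2)) := by
    have := continuous_BP
    exact this.comp (by fun_prop : Continuous (fun σ : ℝ => (xs σ + 1) / 2))
  have h5 : Continuous (fun σ : ℝ => ((xs σ + 1) / 2) ^ (3 / 2 : ℝ)) := by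
    apply Continuous.rpow_const (by fun_prop)
    intro x; right; norm_num
  unfold gain
  exact (((h5.mul h4).mul continuous_const).sub (continuous_const.mul h3.abs)).continuousAt

lemma gain_zero : 3625836428167011754687405683 < gain 0 := by
  unfold gain
  rw [xs_zero, zero_div, Th_zero]
  norm_num [BP_one]

theorem exists_consts : ∃ δ : ℝ, 0 < δ ∧ ∃ c1 : ℝ, 0 < c1 ∧ ∃ C : ℝ, 0 < C ∧
    ∀ σ : ℝ, 0 < σ → σ < δ → xs σ ≤ 26 / 25 ∧ (∀ z, 31 / 2 ≤ z → Th z (xs σ) σ ≤ 0) ∧
      (∀ z ∈ Icc (0 : ℝ) (31 / 2), Th z (xs σ) σ ≤ C) ∧ c1 ≤ gain σ := by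
  obtain ⟨C, hC, hb⟩ := ev_bound
  have h1 : ∀ᶠ σ in 𝓝 (0 : ℝ), xs σ < 26 / 25 := by
    have := continuous_xs.continuousAt (x := 0)
    have h0 : xs 0 < 26 / 25 := by rw [xs_zero]; norm_num
    exact this.eventually_lt_const h0
  have h2 : ∀ᶠ σ in 𝓝 (0 : ℝ), 3625836428167011754687405683 < gain σ :=
    continuous_gain.eventually_const_lt gain_zero
  have h3 := (h1.and h2).and ev_neg
  rw [Metric.eventually_nhds_iff] at h3
  obtain ⟨ε, hε, h⟩ := h3
  refine ⟨min ε 1, by positivity, 3625836428167011754687405683, by norm_num, C, hC, fun σ h0 hσ => ?_⟩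
  have hd : dist σ 0 < ε := by
    rw [Real.dist_eq, sub_zero, abs_of_pos h0]
    exact lt_of_lt_of_le hσ (min_le_left _ _)
  obtain ⟨⟨a1, a2⟩, a3⟩ := h hd
  refine ⟨a1.le, a3, fun z hz => hb σ ⟨h0.le, (hσ.le.trans (min_le_right _ _))⟩ z hz, a2.le⟩

end Pool.Agent.Y300.FC.Asym
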