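import Mathlib
import Pool.Agent.Helper858.Core
import Pool.Agent.Y300.FC.Asym

/-! Project FC (helper300): adaptation of `Pool.Agent.Helper858.Core`. -/

namespace Pool.Agent.Y300.FC.Core

open Pool.Agent.Helper858.Leg Pool.Agent.Helper858.Gen Pool.Agent.Helper858.Der
  Pool.Agent.Y300.FC.Test Pool.Agent.Y300.FC.Asym Set Filter Topology
open Pool.Agent.Helper858.Test (th D_th)
open Pool.Agent.Helper858.Asym (xs continuous_xs xs_zero xs_gt sg_xs)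
open Pool.Agent.Helper858.Core (leg_gen_deriv gr gr_self abs_gr_le A A_nonneg A_le_one abs_A_le
  A_zero avg_tsum Q Q_eq Q_lower EE_le_one)

section
variable {ι : Type*} [Fintype ι] (y : ι → Fin 3 → ℝ)

lemma test_ineq [Nonempty ι] (hy : ∀ j, ∑ m, y j m ^ 2 = 1) {x : ℝ} (hx : 1 < x)
    (hx2 : x ≤ 26 / 25) : fT 1 x / (Fintype.card ι : ℝ) ≤ ∑' k, A y k * cf k x := by
  have hN : (0 : ℝ) < Fintype.card ι := by exact_mod_cast Fintype.card_pos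
  rw [← avg_tsum y (fun k => cf k x)
    (fun i j => summable_cf (abs_leg_le_one _ (abs_gr_le y hy i j)) hx)]
  have h1 : ∀ i j, ∑' k, leg (gr y i j) k * cf k x = fT (gr y i j) x :=
    fun i j => (fT_tsum hx (abs_gr_le y hy i j)).symm
  simp only [h1]
  have h2 : (Fintype.card ι : ℝ) * fT 1 x ≤ ∑ i, ∑ j, fT (gr y i j) x := by
    calc (Fintype.card ι : ℝ) * fT 1 x = ∑ i : ι, fT (gr y i i) x := by
          simp [gr_self y hy]
      _ ≤ ∑ i, ∑ j, fT (gr y i j) x := by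
          refine Finset.sum_le_sum fun i _ => ?_
          exact Finset.single_le_sum (f := fun j => fT (gr y i j) x)
            (fun j _ => fT_nonneg hx hx2 (abs_le.mp (abs_gr_le y hy i j)).2) (Finset.mem_univ i)
  rw [div_le_div_iff₀ hN (by positivity)]
  calc fT 1 x * (Fintype.card ι : ℝ) ^ 2 = ((Fintype.card ι : ℝ) * fT 1 x) * (Fintype.card ι : ℝ) := by
        ring
    _ ≤ _ := by gcongr

lemma moments_lower [Nonempty ι] (hy : ∀ j, ∑ m, y j m ^ 2 = 1) {σ C c1 : ℝ} (hσ : 0 < σ)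
    (hC : 0 < C) (hx2 : xs σ ≤ 26 / 25) (hneg : ∀ z, 31 / 2 ≤ z → Th z (xs σ) σ ≤ 0)
    (hbd : ∀ z ∈ Icc (0 : ℝ) (31 / 2), Th z (xs σ) σ ≤ C) (hgain : c1 ≤ gain σ) (t : ℕ)
    (ht : σ * ((t : ℝ) + 3 / 2) = 31 / 2)
    (hN : (19079 / 10000 : ℝ) ^ 2 * (Fintype.card ι : ℝ) ≤ (t : ℝ) ^ 2) :
    2 * c1 / (3 * C) ≤ ∑ k ∈ Finset.range t, ((k : ℝ) + 1) * A y (k + 1) := by
  have hx := xs_gt hσ
  have hs := sg_xs hσ.le
  have hNp : (0 : ℝ) < Fintype.card ι := by exact_mod_cast Fintype.card_pos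
  have hmain := test_ineq y hy hx hx2
  have S := summable_cf (abs_A_le y hy) hx
  -- split the series
  have hsplit := S.sum_add_tsum_nat_add (t + 1)
  have htail : ∑' k, A y (k + (t + 1)) * cf (k + (t + 1)) (xs σ) ≤ 0 := by
    refine tsum_nonpos fun k => ?_
    refine mul_nonpos_of_nonneg_of_nonpos (A_nonneg y hy _) ?_
    unfold cf
    rw [hs]
    have hE := EE_pos (k + (t + 1)) hx.le
    have hz : 31 / 2 ≤ (((k + (t + 1) : ℕ) : ℝ) + 1 / 2) * σ := by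
      rw [← ht]
      push_cast
      have : (0 : ℝ) ≤ k := Nat.cast_nonneg k
      nlinarith
    have := hneg _ hz
    have h1 : 0 ≤ σ ^ 2 * ((((k + (t + 1) : ℕ) : ℝ) + 1 / 2) * EE (k + (t + 1)) (xs σ)) := by
      positivity
    calc σ ^ 2 * ((((k + (t + 1) : ℕ) : ℝ) + 1 / 2) * EE (k + (t + 1)) (xs σ) *
          Th ((((k + (t + 1) : ℕ) : ℝ) + 1 / 2) * σ) (xs σ) σ)
        = (σ ^ 2 * ((((k + (t + 1) : ℕ) : ℝ) + 1 / 2) * EE (k + (t + 1)) (xs σ))) *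
          Th ((((k + (t + 1) : ℕ) : ℝ) + 1 / 2) * σ) (xs σ) σ := by ring
      _ ≤ 0 := mul_nonpos_of_nonneg_of_nonpos h1 this
  have hhead : ∑ k ∈ Finset.range (t + 1), A y k * cf k (xs σ) ≤
      σ ^ 2 * (1 / 2 * |Th (σ / 2) (xs σ) σ| +
        C * ∑ k ∈ Finset.range t, ((k : ℝ) + 3 / 2) * A y (k + 1)) := by
    rw [Finset.sum_range_succ', A_zero, one_mul, mul_add, add_comm]
    refine add_le_add ?_ ?_
    · unfold cf
      rw [hs]
      have hE0 := EE_pos 0 hx.le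
      have hE1 := EE_le_one 0 hx
      have e : (((0 : ℕ) : ℝ) + 1 / 2) * σ = σ / 2 := by push_cast; ring
      rw [e]
      refine mul_le_mul_of_nonneg_left ?_ (by positivity)
      calc (((0 : ℕ) : ℝ) + 1 / 2) * EE 0 (xs σ) * Th (σ / 2) (xs σ) σ
          ≤ (((0 : ℕ) : ℝ) + 1 / 2) * EE 0 (xs σ) * |Th (σ / 2) (xs σ) σ| := by
            gcongr; exact le_abs_self _
        _ ≤ (((0 : ℕ) : ℝ) + 1 / 2) * 1 * |Th (σ / 2) (xs σ) σ| := by gcongr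
        _ = 1 / 2 * |Th (σ / 2) (xs σ) σ| := by push_cast; ring
    · rw [Finset.mul_sum, Finset.mul_sum]
      refine Finset.sum_le_sum fun k hk => ?_
      have hkt : (k : ℝ) + 1 ≤ t := by
        have := Finset.mem_range.mp hk
        exact_mod_cast this
      unfold cf
      rw [hs]
      have hE0 := EE_pos (k + 1) hx.le
      have hE1 := EE_le_one (k + 1) hx
      have hA := A_nonneg y hy (k + 1)
      have hz : (((k + 1 : ℕ) : ℝ) + 1 / 2) * σ ∈ Icc (0 : ℝ) (31 / 2) := by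
        constructor
        · positivity
        · rw [← ht]; push_cast; nlinarith
      have hT := hbd _ hz
      have hET : EE (k + 1) (xs σ) * Th ((((k + 1 : ℕ) : ℝ) + 1 / 2) * σ) (xs σ) σ ≤ C := by
        rcases le_or_gt (Th ((((k + 1 : ℕ) : ℝ) + 1 / 2) * σ) (xs σ) σ) 0 with h | h
        · exact (mul_nonpos_of_nonneg_of_nonpos hE0.le h).trans hC.le
        · calc EE (k + 1) (xs σ) * Th ((((k + 1 : ℕ) : ℝ) + 1 / 2) * σ) (xs σ) σ
              ≤ 1 * Th ((((k + 1 : ℕ) : ℝ) + 1 / 2) * σ) (xs σ) σ := by gcongr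
            _ ≤ C := by rw [one_mul]; exact hT
      calc A y (k + 1) * (σ ^ 2 * ((((k + 1 : ℕ) : ℝ) + 1 / 2) * EE (k + 1) (xs σ) *
            Th ((((k + 1 : ℕ) : ℝ) + 1 / 2) * σ) (xs σ) σ))
          = (A y (k + 1) * (σ ^ 2 * (((k + 1 : ℕ) : ℝ) + 1 / 2))) * (EE (k + 1) (xs σ) *
            Th ((((k + 1 : ℕ) : ℝ) + 1 / 2) * σ) (xs σ) σ) := by ring
        _ ≤ (A y (k + 1) * (σ ^ 2 * (((k + 1 : ℕ) : ℝ) + 1 / 2))) * C := by gcongr
        _ = σ ^ 2 * (C * (((k : ℝ) + 3 / 2) * A y (k + 1))) := by push_cast; ring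
  -- lower bound of the left side
  have hfT : 0 ≤ fT 1 (xs σ) := fT_nonneg hx hx2 le_rfl
  have hinv : (19079 / 10000 : ℝ) ^ 2 / (31 / 2) ^ 2 * σ ^ 2 ≤ 1 / (Fintype.card ι : ℝ) := by
    rw [le_div_iff₀ hNp]
    have h1 : (t : ℝ) ^ 2 ≤ ((t : ℝ) + 3 / 2) ^ 2 := by
      have : (0 : ℝ) ≤ t := Nat.cast_nonneg t
      nlinarith
    have h2 : (19079 / 10000 : ℝ) ^ 2 * (Fintype.card ι : ℝ) * σ ^ 2 ≤ (31 / 2) ^ 2 := by
      calc (19079 / 10000 : ℝ) ^ 2 * (Fintype.card ι : ℝ) * σ ^ 2 ≤ ((t : ℝ) + 3 / 2) ^ 2 * σ ^ 2 := by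
            gcongr
            exact hN.trans h1
        _ = (σ * ((t : ℝ) + 3 / 2)) ^ 2 := by ring
        _ = _ := by rw [ht]
    calc (19079 / 10000 : ℝ) ^ 2 / (31 / 2) ^ 2 * σ ^ 2 * (Fintype.card ι : ℝ)
        = ((19079 / 10000 : ℝ) ^ 2 * (Fintype.card ι : ℝ) * σ ^ 2) / (31 / 2) ^ 2 := by ring
      _ ≤ (31 / 2) ^ 2 / (31 / 2) ^ 2 := by gcongr
      _ = 1 := by norm_num
  have hL : fT 1 (xs σ) * ((19079 / 10000 : ℝ) ^ 2 / (31 / 2) ^ 2 * σ ^ 2) ≤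
      fT 1 (xs σ) / (Fintype.card ι : ℝ) := by
    rw [div_eq_mul_one_div (fT 1 (xs σ))]
    gcongr
  have hall : fT 1 (xs σ) * ((19079 / 10000 : ℝ) ^ 2 / (31 / 2) ^ 2 * σ ^ 2) ≤
      σ ^ 2 * (1 / 2 * |Th (σ / 2) (xs σ) σ| +
        C * ∑ k ∈ Finset.range t, ((k : ℝ) + 3 / 2) * A y (k + 1)) := by linarith
  have hσ2 : 0 < σ ^ 2 := by positivity
  have hall2 : fT 1 (xs σ) * ((19079 / 10000 : ℝ) ^ 2 / (31 / 2) ^ 2) ≤
      (1 / 2 * |Th (σ / 2) (xs σ) σ| +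
        C * ∑ k ∈ Finset.range t, ((k : ℝ) + 3 / 2) * A y (k + 1)) := by
    refine le_of_mul_le_mul_left ?_ hσ2
    calc σ ^ 2 * (fT 1 (xs σ) * ((19079 / 10000 : ℝ) ^ 2 / (31 / 2) ^ 2))
        = fT 1 (xs σ) * ((19079 / 10000 : ℝ) ^ 2 / (31 / 2) ^ 2 * σ ^ 2) := by ring
      _ ≤ _ := hall
  have hg : c1 ≤ C * ∑ k ∈ Finset.range t, ((k : ℝ) + 3 / 2) * A y (k + 1) := by
    unfold gain at hgain
    rw [fT_one hx] at hall2
    linarith
  have hcmp : ∑ k ∈ Finset.range t, ((k : ℝ) + 3 / 2) * A y (k + 1) ≤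
      3 / 2 * ∑ k ∈ Finset.range t, ((k : ℝ) + 1) * A y (k + 1) := by
    rw [Finset.mul_sum]
    refine Finset.sum_le_sum fun k _ => ?_
    have hA := A_nonneg y hy (k + 1)
    have : (0 : ℝ) ≤ k := Nat.cast_nonneg k
    nlinarith [mul_nonneg this hA]
  rw [div_le_iff₀ (by positivity)]
  nlinarith [mul_le_mul_of_nonneg_left hcmp hC.le]

end

/-- the core estimate -/
theorem core : ∃ c : ℝ, 0 < c ∧ ∃ N₀ : ℕ, ∀ N : ℕ, N₀ ≤ N → ∀ y : Fin N → Fin 3 → ℝ,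
    (∀ j, ∑ m, y j m ^ 2 = 1) → ∀ r : ℝ, 0 < r → r < 1 →
      c * r ^ ((19079 / 10000 : ℝ) * Real.sqrt N) ≤ Q y r := by
  obtain ⟨δ, hδ, c1, hc1, C, hC, h⟩ := exists_consts
  obtain ⟨T, hT⟩ := exists_nat_gt (31 / 2 / δ)
  refine ⟨2 * c1 / (3 * C), by positivity, max 1 (T ^ 2), fun N hN y hy r h0 h1 => ?_⟩
  have hN1 : 1 ≤ N := (le_max_left _ _).trans hN
  have hNT : T ^ 2 ≤ N := (le_max_right _ _).trans hN
  have : Nonempty (Fin N) := ⟨⟨0, hN1⟩⟩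
  set t : ℕ := ⌈(19079 / 10000 : ℝ) * Real.sqrt N⌉₊ with ht
  have ht1 : (19079 / 10000 : ℝ) * Real.sqrt N ≤ t := Nat.le_ceil _
  have ht2 : (t : ℝ) < (19079 / 10000 : ℝ) * Real.sqrt N + 1 := Nat.ceil_lt_add_one (by positivity)
  have hsqT : (T : ℝ) ≤ Real.sqrt N := by
    apply Real.le_sqrt_of_sq_le
    exact_mod_cast hNT
  have htT : (T : ℝ) ≤ t := by
    have : 0 ≤ Real.sqrt N := Real.sqrt_nonneg _
    nlinarith
  have htpos : (0 : ℝ) < (t : ℝ) + 3 / 2 := by positivity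
  set σ : ℝ := 31 / 2 / ((t : ℝ) + 3 / 2) with hσdef
  have hσ : 0 < σ := by positivity
  have hσt : σ * ((t : ℝ) + 3 / 2) = 31 / 2 := by rw [hσdef, div_mul_cancel₀ _ htpos.ne']
  have hσδ : σ < δ := by
    rw [hσdef, div_lt_iff₀ htpos]
    rw [div_lt_iff₀ hδ] at hT
    nlinarith
  obtain ⟨a1, a2, a3, a4⟩ := h σ hσ hσδ
  have hcard : (19079 / 10000 : ℝ) ^ 2 * (Fintype.card (Fin N) : ℝ) ≤ (t : ℝ) ^ 2 := by
    rw [Fintype.card_fin]
    calc (19079 / 10000 : ℝ) ^ 2 * (N : ℝ) = ((19079 / 10000 : ℝ) * Real.sqrt N) ^ 2 := by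
          rw [mul_pow, Real.sq_sqrt (Nat.cast_nonneg N)]
      _ ≤ (t : ℝ) ^ 2 := by gcongr
  have hm := moments_lower y hy hσ hC a1 a2 a3 a4 t hσt hcard
  have hq := Q_lower y hy h0 h1 t
  refine le_trans ?_ hq
  rw [mul_comm]
  have hexp : r ^ ((19079 / 10000 : ℝ) * Real.sqrt N) ≤ r ^ (t - 1) := by
    rw [← Real.rpow_natCast]
    apply Real.rpow_le_rpow_of_exponent_ge h0 h1.le
    have ht3 : 1 ≤ t := by
      by_contra hcon
      have : t = 0 := by omega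
      rw [this] at ht1
      have hs1 : (1 : ℝ) ≤ Real.sqrt N := by
        rw [Real.one_le_sqrt]; exact_mod_cast hN1
      push_cast at ht1
      nlinarith
    rw [Nat.cast_sub ht3]
    push_cast
    linarith
  gcongr

end Pool.Agent.Y300.FC.Core
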